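import Pool.Agent.H22.CM.Stm

set_option autoImplicit false

namespace H50.CM

open H22.CM

theorem t_NPS : S_NPS := by
  intro G _ _ C _ hC hbot
  classical
  have hex : ∃ n, derivedSeries C n = ⊥ := (Group.isSolvable_def C).1 hC
  obtain ⟨n, hn, hmin⟩ : ∃ n, derivedSeries C n = ⊥ ∧ ∀ m < n, derivedSeries C m ≠ ⊥ :=
    ⟨Nat.find hex, Nat.find_spec hex, fun m hm => Nat.find_min hex hm⟩
  cases n with
  | zero =>
    exfalso
    rw [derivedSeries_zero] at hn
    apply hbot
    rw [eq_bot_iff]
    intro x hx
    have h1 : (⟨x, hx⟩ : C) ∈ (⊤ : Subgroup C) := Subgroup.mem_top _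
    rw [hn, Subgroup.mem_bot] at h1
    exact Subgroup.mem_bot.2 (congrArg Subtype.val h1)
  | succ n =>
    have hA0 : derivedSeries C n ≠ ⊥ := hmin n (Nat.lt_succ_self n)
    rw [derivedSeries_succ] at hn
    have hcomm : ∀ x ∈ derivedSeries C n, ∀ y ∈ derivedSeries C n, x * y = y * x := by
      intro x hx y hy
      have h1 := Subgroup.commutator_mem_commutator hx hy
      rw [hn, Subgroup.mem_bot] at h1
      exact commutatorElement_eq_one_iff_mul_comm.1 h1
    have := derivedSeries_characteristic C n
    set A : Subgroup G := (derivedSeries C n).map C.subtype with hA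
    have hAn : A.Normal := ConjAct.normal_of_characteristic_of_normal
    have hAC : A ≤ C := by
      rintro x ⟨y, -, rfl⟩
      exact y.2
    have hAcomm : ∀ x y : A, x * y = y * x := by
      rintro ⟨x, x', hx, rfl⟩ ⟨y, y', hy, rfl⟩
      apply Subtype.ext
      show C.subtype x' * C.subtype y' = C.subtype y' * C.subtype x'
      rw [← map_mul, ← map_mul, hcomm x' hx y' hy]
    have hAbot : A ≠ ⊥ := by
      intro h
      apply hA0
      exact (Subgroup.map_eq_bot_iff_of_injective _ (Subgroup.subtype_injective C)).1 h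
    have hcard : Nat.card A ≠ 1 := by
      intro h
      exact hAbot (Subgroup.card_eq_one.1 h)
    obtain ⟨p, hp, hpA⟩ := Nat.exists_prime_and_dvd hcard
    have : Fact p.Prime := ⟨hp⟩
    let P : Sylow p A := default
    have hPn : (P : Subgroup A).Normal := ⟨fun x hx y => by
      rw [hAcomm y x, mul_assoc, mul_inv_cancel, mul_one]
      exact hx⟩
    have hPc := Sylow.characteristic_of_normal P hPn
    have hPb : (P : Subgroup A) ≠ ⊥ := P.ne_bot_of_dvd_card hpA
    refine ⟨p, (P : Subgroup A).map A.subtype, hp, ConjAct.normal_of_characteristic_of_normal,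
      P.isPGroup'.map _, ?_, ?_⟩
    · intro h
      exact hPb ((Subgroup.map_eq_bot_iff_of_injective _ (Subgroup.subtype_injective A)).1 h)
    · rintro x ⟨y, -, rfl⟩
      exact hAC y.2

theorem hal_aux (n : ℕ) : ∀ (G : Type) [Group G] [Finite G] [Group.IsSolvable G],
    Nat.card G = n → ∃ K : Subgroup G, Odd (Nat.card K) ∧ ∃ n : ℕ, Nat.card K * 2 ^ n = Nat.card G := by
  induction n using Nat.strong_induction_on with
  | _ n ih =>
    intro G _ _ _ hG
    by_cases htop : (⊤ : Subgroup G) = ⊥
    · refine ⟨⊥, by simp, 0, ?_⟩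
      rw [pow_zero, mul_one, ← htop, Subgroup.card_top]
    obtain ⟨p, N, hp, hN, hNp, hNb, -⟩ := t_NPS G ⊤ inferInstance htop
    have : Fact p.Prime := ⟨hp⟩
    have hGN := N.card_eq_card_quotient_mul_card_subgroup
    have hNcard : 1 < Nat.card N := by
      rcases Nat.lt_or_ge 1 (Nat.card N) with h | h
      · exact h
      · exfalso
        apply hNb
        apply Subgroup.card_eq_one.1
        have : 0 < Nat.card N := Nat.card_pos
        omega
    have hQpos : 0 < Nat.card (G ⧸ N) := Nat.card_pos
    have hlt : Nat.card (G ⧸ N) < n := by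
      rw [← hG, hGN]
      nlinarith
    obtain ⟨K', hK'o, m, hK'm⟩ := ih _ hlt (G ⧸ N) rfl
    set H : Subgroup G := K'.comap (QuotientGroup.mk' N) with hH
    have hNH : N ≤ H := by
      intro x hx
      show (QuotientGroup.mk' N) x ∈ K'
      rw [show (QuotientGroup.mk' N) x = 1 from (QuotientGroup.eq_one_iff x).2 hx]
      exact K'.one_mem
    have hidx : H.index = K'.index := by
      rw [hH, Subgroup.index_comap_of_surjective _ (QuotientGroup.mk'_surjective N)]
    have hHc : Nat.card H = Nat.card K' * Nat.card N := by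
      have h1 := H.card_mul_index
      have h2 := K'.card_mul_index
      have h3 : 0 < K'.index := Nat.pos_of_ne_zero Subgroup.index_ne_zero_of_finite
      rw [hidx, hGN, ← h2] at h1
      apply Nat.eq_of_mul_eq_mul_right h3
      rw [h1]
      ring
    obtain ⟨a, ha⟩ := (IsPGroup.iff_card (p := p)).1 hNp
    rcases hp.eq_two_or_odd' with h2 | hodd
    · subst h2
      have hidxN : (N.subgroupOf H).index = Nat.card K' := by
        have h1 := (N.subgroupOf H).card_mul_index
        have h2 : Nat.card (N.subgroupOf H) = Nat.card N :=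
          Nat.card_congr (Subgroup.subgroupOfEquivOfLe hNH).toEquiv
        rw [h2, hHc, mul_comm (Nat.card K')] at h1
        exact Nat.eq_of_mul_eq_mul_left Nat.card_pos h1
      have hcop : (Nat.card (N.subgroupOf H)).Coprime (N.subgroupOf H).index := by
        rw [hidxN, Nat.card_congr (Subgroup.subgroupOfEquivOfLe hNH).toEquiv, ha]
        exact Nat.Coprime.pow_left a (Nat.coprime_two_left.2 hK'o)
      have : (N.subgroupOf H).Normal := inferInstance
      obtain ⟨K0, hK0⟩ := Subgroup.exists_left_complement'_of_coprime hcop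
      have hK0c : Nat.card K0 = Nat.card K' := by
        have h1 := hK0.card_mul_card
        rw [Nat.card_congr (Subgroup.subgroupOfEquivOfLe hNH).toEquiv, hHc] at h1
        exact Nat.eq_of_mul_eq_mul_right Nat.card_pos h1
      refine ⟨K0.map H.subtype, ?_, m + a, ?_⟩
      · rw [Nat.card_congr (K0.equivMapOfInjective _ (Subgroup.subtype_injective H)).toEquiv.symm,
          hK0c]
        exact hK'o
      · rw [Nat.card_congr (K0.equivMapOfInjective _ (Subgroup.subtype_injective H)).toEquiv.symm,
          hK0c, hGN, ← hK'm, ha, pow_add]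
        ring
    · refine ⟨H, ?_, m, ?_⟩
      · rw [hHc, ha]
        exact hK'o.mul hodd.pow
      · rw [hHc, hGN, ← hK'm]
        ring

theorem t_HAL : S_HAL := by
  intro G _ _ _
  exact hal_aux _ G rfl

end H50.CM
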